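import Pool.Agent.Y237.FL.Gap

/-!
# Faulty search on two rays (the line) with certain detection at turning points
-/

set_option autoImplicit false

open MeasureTheory
open scoped ENNReal Topology
open Pool.Agent.Helper569.Faulty

namespace Pool.Agent.Results.MP_d94893_lc.LineNotCyclic

/-- The first time at which the searcher reverses direction exactly at `h` (infinite if it never
does). -/
noncomputable def firstTurnAt (y : ℕ → ℝ) (h : ℝ) : ℝ≥0∞ :=
  ⨅ (n : ℕ) (_ : y (n + 1) = h), ENNReal.ofReal (turnTime y (n + 1))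

/-- The time of the first detection, detection being certain when the searcher reverses direction
at `h` and being given by the coins `ω` (one for each pass) otherwise. -/
noncomputable def detTime (y : ℕ → ℝ) (h : ℝ) (ω : ℕ → Bool) : ℝ≥0∞ :=
  min (detectionTime y h ω) (firstTurnAt y h)

/-- The expected time of first detection of a treasure at `h`. -/
noncomputable def expTime (p : ℝ) (y : ℕ → ℝ) (h : ℝ) : ℝ≥0∞ :=
  ∫⁻ ω, detTime y h ω ∂(Measure.infinitePi fun _ : ℕ => coin p)

/-- The competitive ratio `C_p` (detection is certain at turning points). -/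
noncomputable def ratio (p : ℝ) (y : ℕ → ℝ) : ℝ≥0∞ :=
  ⨆ (h : ℝ) (_ : 1 ≤ |h|), ENNReal.ofReal p * expTime p y h / ENNReal.ofReal |h|

/-- The cyclic monotone trajectories for `m = 2`: the excursions go alternately along the positive
ray (distance `x 0`), the negative ray (distance `x 1`), and so on; on each ray the turning
distances are strictly increasing and tend to infinity. -/
def IsCyclicTwoRays (y : ℕ → ℝ) : Prop :=
  y 0 = 0 ∧ ∃ x : ℕ → ℝ, (∀ n, 0 < x n) ∧ (∀ n, x n < x (n + 2)) ∧
    Filter.Tendsto x Filter.atTop Filter.atTop ∧ ∀ n, y (n + 1) = (-1) ^ n * x n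

variable {p : ℝ}

lemma finite_cyc (hp0 : 0 < p) (hp1 : p < 1) : ∃ y : ℕ → ℝ,
    IsCyclicTwoRays y ∧ competitiveRatio p y ≤ ENNReal.ofReal (8 + p) := by
  have hq0 : 0 < 1 - p := by linarith
  set r : ℝ := 2 / (2 - p) with hr
  have hr1 : 1 < r := by
    rw [hr, lt_div_iff₀ (by linarith)]
    linarith
  have hqr : (1 - p) * r < 1 := by
    rw [hr, ← mul_div_assoc, div_lt_one (by linarith)]
    linarith
  have hqr0 : 0 < (1 - p) * r := by positivity
  have hx0 := gx_pos hr1
  have hx2 := gx_lt hr1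
  have hy : ∀ n, gy r (n + 1) = (-1) ^ n * gx r n := fun n => rfl
  have hgeo := (hasSum_geometric_of_lt_one hqr0.le hqr).mul_left (p * (2 / (r - 1) * r ^ 2))
  have hsum := hgeo.add (hasSum_pq hp0 hp1)
  set c := p * (2 / (r - 1) * r ^ 2) * (1 - (1 - p) * r)⁻¹ + 1 with hc
  have hr0 : 0 < r - 1 := by linarith
  have hc0 : 0 ≤ c := by
    have : 0 < 1 - (1 - p) * r := by linarith
    positivity
  have htend : Filter.Tendsto (gx r) Filter.atTop Filter.atTop := by
    have h1 := tendsto_pow_atTop_atTop_of_one_lt hr1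
    exact h1.atTop_div_const (by positivity)
  refine ⟨gy r, ⟨rfl, gx r, hx0, hx2, htend, hy⟩, ?_⟩
  have hcv : 8 + p = p * c := by
    have h2p : (2 - p) ≠ 0 := by linarith
    have e1 : r - 1 = p / (2 - p) := by rw [hr]; field_simp; ring
    have e2 : 1 - (1 - p) * r = p / (2 - p) := by rw [hr]; field_simp; ring
    rw [hc, e1, e2, hr]
    field_simp
    ring
  rw [hcv, ratio_le_iff hp0 hc0]
  -- bound for one side
  have main : ∀ j0 : ℕ, (j0 = 0 ∨ j0 = 1) → ∀ g : ℝ, 1 ≤ g →
      expectedTime p (gy r) ((-1) ^ j0 * g) ≤ ENNReal.ofReal (c * g) := by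
    intro j0 hj0 g hg
    have hstart : gx r j0 ≤ g := by
      have : gx r j0 ≤ 1 := by
        unfold gx
        rw [div_le_one (by positivity)]
        exact pow_le_pow_right₀ hr1.le (by omega)
      linarith
    have hex : ∃ m, g < gx r (j0 + 2 * m) := by
      obtain ⟨m, hm⟩ := pow_unbounded_of_one_lt (g * r ^ 2) hr1
      refine ⟨m, ?_⟩
      unfold gx
      rw [lt_div_iff₀ (by positivity)]
      exact hm.trans_le (pow_le_pow_right₀ hr1.le (by omega))
    classical
    have hspec := Nat.find_spec hex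
    have hne : Nat.find hex ≠ 0 := by
      intro h
      rw [h, mul_zero, add_zero] at hspec
      linarith
    obtain ⟨m, hm⟩ := Nat.exists_eq_succ_of_ne_zero hne
    have hmin : gx r (j0 + 2 * m) ≤ g := by
      by_contra h
      push Not at h
      have := Nat.find_min' hex h
      omega
    rw [hm, show j0 + 2 * m.succ = j0 + 2 * m + 2 by rw [Nat.succ_eq_add_one]; ring] at hspec
    set i := j0 + 2 * m with hi
    have hg0 : 0 < g := by linarith
    have h1 := expectedTime_le hp0 hp1.le (tau_strictMono hx0 hx2 hg0 hspec)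
      (isAt_cyc_passes hx0 hx2 rfl hy hg0 hspec)
    rw [pow_parity (show i % 2 = j0 % 2 by omega)] at h1
    refine h1.trans ?_
    have hb : ∀ k, tau (gx r) i g k ≤ (2 / (r - 1) * r ^ 2 * r ^ k + 1) * g := by
      intro k
      unfold tau
      have h2 := S_gx_le hr1 (i + 2 + k)
      have h3 : gx r (i + 2 + k) = r ^ 2 * r ^ k * gx r i := by
        unfold gx
        rw [pow_add, pow_add]
        ring
      have h4 : (-1 : ℝ) ^ k * g ≤ g := by
        rcases neg_one_pow_eq_or ℝ k with h | h <;> rw [h] <;> linarith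
      have h5 : 2 / (r - 1) * gx r (i + 2 + k) ≤ 2 / (r - 1) * r ^ 2 * r ^ k * g := by
        rw [h3]
        calc 2 / (r - 1) * (r ^ 2 * r ^ k * gx r i) = (2 / (r - 1) * r ^ 2 * r ^ k) * gx r i := by
              ring
          _ ≤ (2 / (r - 1) * r ^ 2 * r ^ k) * g := by
              apply mul_le_mul_of_nonneg_left hmin
              positivity
      linarith
    have hT : HasSum (fun k : ℕ => p * (1 - p) ^ k * ((2 / (r - 1) * r ^ 2 * r ^ k + 1) * g))
        (c * g) := by
      have h6 := hsum.mul_right g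
      have e1 : (fun k : ℕ => p * (1 - p) ^ k * ((2 / (r - 1) * r ^ 2 * r ^ k + 1) * g)) =
          fun k : ℕ => (p * (2 / (r - 1) * r ^ 2) * ((1 - p) * r) ^ k + p * (1 - p) ^ k) * g := by
        funext k
        rw [mul_pow]
        ring
      rw [e1]
      exact h6
    exact ofReal_sum_le hp0 hp1 hb (fun k => by positivity) hT
  intro h hh
  rcases le_total 0 h with h1 | h1
  · have h2 := main 0 (Or.inl rfl) |h| hh
    rw [pow_zero, one_mul] at h2
    rwa [abs_of_nonneg h1] at h2 ⊢
  · have h2 := main 1 (Or.inr rfl) |h| hh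
    rw [pow_one, abs_of_nonpos h1] at h2
    rw [abs_of_nonpos h1]
    convert h2 using 2
    ring


lemma expTime_le (p : ℝ) (y : ℕ → ℝ) (h : ℝ) : expTime p y h ≤ expectedTime p y h := by
  unfold expTime expectedTime
  exact lintegral_mono fun ω => min_le_left _ _

lemma ratio_le (p : ℝ) (y : ℕ → ℝ) : ratio p y ≤ competitiveRatio p y := by
  unfold ratio competitiveRatio
  refine iSup₂_mono fun h _ => ?_
  exact ENNReal.div_le_div_right (mul_le_mul_right (expTime_le p y h) _) _

lemma expTime_eq (p : ℝ) {y : ℕ → ℝ} {h : ℝ} (hno : ∀ n, y (n + 1) ≠ h) :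
    expTime p y h = expectedTime p y h := by
  unfold expTime expectedTime
  have h1 : firstTurnAt y h = ⊤ := by
    unfold firstTurnAt
    simp only [iInf_eq_top]
    intro n hn
    exact absurd hn (hno n)
  congr 1
  funext ω
  unfold detTime
  rw [h1, min_eq_left le_top]

lemma turn_le_right {x y : ℕ → ℝ} (hp0 : 0 < p) (hp1 : p < 1) (hx0 : ∀ n, 0 < x n)
    (hx2 : ∀ n, x n < x (n + 2)) (hy0 : y 0 = 0) (hy : ∀ n, y (n + 1) = (-1) ^ n * x n)
    (n : ℕ) {g : ℝ} (h1 : x n < g) (h2 : g < x (n + 2)) :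
    expectedTime p y ((-1) ^ n * x n) ≤ expectedTime p y ((-1) ^ n * g) := by
  have hyσ : ∀ n, y (n + 1) = 1 * (-1) ^ n * x n := fun n => by rw [hy n]; ring
  have hg : 0 < g := (hx0 n).trans h1
  -- the pass times over the turning point
  let τ : ℕ → ℝ := fun k => match k with
    | 0 => S x n + x n
    | k + 1 => tau x n (x n) k
  have hτ0 : τ 0 = S x n + x n := rfl
  have hτs : ∀ k, τ (k + 1) = tau x n (x n) k := fun k => rfl
  have hmono' := tau_strictMono hx0 hx2 (hx0 n) (hx2 n)
  have hmono : StrictMono τ := by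
    apply strictMono_nat_of_lt_succ
    intro k
    rcases k with _ | k
    · rw [hτ0, hτs]
      unfold tau
      rw [show n + 2 + 0 = n + 1 + 1 by ring, S_succ, S_succ, pow_zero]
      linarith [hx0 n, hx0 (n + 1)]
    · rw [hτs, hτs]
      exact hmono' (Nat.lt_succ_self k)
  have hat : ∀ k, IsAt y (τ k) ((-1) ^ n * x n) := by
    intro k
    rcases k with _ | k
    · rw [hτ0, ← turnTime_cyc hx0 (Or.inl rfl) hy0 hyσ n, ← hy n, turnTime_succ]
      exact isAt_segment y n Set.right_mem_uIcc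
    · rw [hτs]
      exact isAt_cyc_passes hx0 hx2 hy0 hy (hx0 n) (hx2 n) k
  have hle : ∀ k, τ k ≤ tau x n g k := by
    intro k
    rcases k with _ | k
    · rw [hτ0]
      unfold tau
      rw [show n + 2 + 0 = n + 1 + 1 by ring, S_succ, S_succ, pow_zero]
      linarith [hx0 n, hx0 (n + 1)]
    · rw [hτs]
      unfold tau
      rw [show n + 2 + (k + 1) = n + 2 + k + 1 by ring, S_succ, pow_succ]
      rcases Nat.even_or_odd k with h | h
      · rw [h.neg_one_pow]
        have : x (n + 2) ≤ x (n + 2 + k) := by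
          apply x_mono_parity hx2 (by omega)
          obtain ⟨m, hm⟩ := h
          omega
        linarith
      · rw [h.neg_one_pow]
        have := hx0 (n + 2 + k)
        linarith [hx0 n]
  have hmg := tau_strictMono hx0 hx2 hg h2
  rw [expectedTime_eq hp0 hp1.le, expectedTime_eq hp0 hp1.le]
  apply ENNReal.tsum_le_tsum
  intro k
  refine mul_le_mul_right ?_ _
  refine (passTime_le hmono hat k).trans ((ENNReal.ofReal_le_ofReal (hle k)).trans ?_)
  refine le_passTime hmg (fun s hs => ?_) k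
  apply isAt_tau hx0 hx2 (Or.inl rfl) hy0 hyσ h1
  rwa [one_mul]

lemma le_ratio (hp0 : 0 < p) (hp1 : p < 1) {y : ℕ → ℝ} (hyc : IsCyclicTwoRays y) :
    competitiveRatio p y ≤ ratio p y := by
  obtain ⟨hy0, x, hx0, hx2, -, hy⟩ := hyc
  have hterm : ∀ h : ℝ, 1 ≤ |h| → (∀ n, y (n + 1) ≠ h) →
      ENNReal.ofReal p * expectedTime p y h ≤ ratio p y * ENNReal.ofReal |h| := by
    intro h hh hno
    have hpos : 0 < |h| := by linarith
    have e1 : ENNReal.ofReal |h| ≠ 0 := by simpa using hpos
    rw [← ENNReal.div_le_iff e1 ENNReal.ofReal_ne_top, ← expTime_eq p hno]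
    unfold ratio
    exact le_iSup₂ (f := fun (h : ℝ) (_ : 1 ≤ |h|) =>
      ENNReal.ofReal p * expTime p y h / ENNReal.ofReal |h|) h hh
  unfold competitiveRatio
  refine iSup₂_le fun h hh => ?_
  have hpos : 0 < |h| := by linarith
  have e1 : ENNReal.ofReal |h| ≠ 0 := by simpa using hpos
  rw [ENNReal.div_le_iff e1 ENNReal.ofReal_ne_top]
  by_cases hno : ∀ n, y (n + 1) ≠ h
  · exact hterm h hh hno
  push Not at hno
  obtain ⟨n, hn⟩ := hno
  have hsgn : ∀ (m : ℕ) (a : ℝ), 0 < a → |(-1) ^ m * a| = a := by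
    intro m a ha
    rw [abs_mul, abs_of_pos ha]
    simp
  rw [hy n] at hn
  have hxn : |h| = x n := by rw [← hn]; exact hsgn n _ (hx0 n)
  by_cases htop : ratio p y = ⊤
  · rw [htop, ENNReal.top_mul e1]
    exact le_top
  have hg : ∀ g : ℝ, x n < g → g < x (n + 2) →
      ENNReal.ofReal p * expectedTime p y h ≤ ratio p y * ENNReal.ofReal g := by
    intro g h1 h2
    have hg0 : 0 < g := (hx0 n).trans h1
    have habs := hsgn n g hg0
    have hnt : ∀ m, y (m + 1) ≠ (-1) ^ n * g := by
      intro m hm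
      rw [hy m] at hm
      have hgm : x m = g := by
        rw [← hsgn m _ (hx0 m), hm, habs]
      have hpar : m % 2 = n % 2 := by
        by_contra hne
        have h3 : (-1 : ℝ) ^ m = -(-1) ^ n := by
          rw [pow_parity (show m % 2 = (n + 1) % 2 by omega), pow_succ]
          ring
        rw [h3, hgm] at hm
        have h4 : (-1 : ℝ) ^ n * g = 0 := by linarith
        rw [h4, abs_zero] at habs
        linarith
      rcases Nat.lt_or_ge n m with h5 | h5
      · have := x_mono_parity hx2 (show n + 2 ≤ m by omega) (by omega)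
        linarith
      · have := x_mono_parity hx2 h5 hpar.symm
        linarith
    have h6 := hterm ((-1) ^ n * g) (by rw [habs]; linarith) hnt
    rw [habs] at h6
    refine le_trans ?_ h6
    rw [← hn]
    exact mul_le_mul_right (turn_le_right hp0 hp1 hx0 hx2 hy0 hy n h1 h2) _
  rw [hxn]
  have hlim : Filter.Tendsto (fun g : ℝ => ratio p y * ENNReal.ofReal g) (𝓝[>] (x n))
      (𝓝 (ratio p y * ENNReal.ofReal (x n))) := by
    apply Filter.Tendsto.mono_left _ nhdsWithin_le_nhds
    apply ENNReal.Tendsto.const_mul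
    · exact (ENNReal.continuous_ofReal.tendsto _)
    · right
      exact htop
  refine ge_of_tendsto hlim ?_
  have hmem : Set.Ioo (x n) (x (n + 2)) ∈ 𝓝[>] (x n) := Ioo_mem_nhdsGT (hx2 n)
  filter_upwards [hmem] with g hgm
  exact hg g hgm.1 hgm.2

lemma isTrajectory (y : ℕ → ℝ) (hyc : IsCyclicTwoRays y) : IsTrajectory y := by
  obtain ⟨hy0, x, hx0, hx2, -, hy⟩ := hyc
  exact isTrajectory_cyc hx0 hx2 hy0 hy

/-- **The case `m = 2` (the line), every `p ∈ (0,1)`.** With detection certain at the turning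
points, the infimum of the competitive ratio over the cyclic monotone trajectories is at most
`8 + p` and exceeds the infimum over all trajectories by at least `p ^ 4 (1 - p) ^ 3 / 20`; so some
trajectory has competitive ratio strictly below the cyclic monotone infimum. -/
theorem result (p : ℝ) (hp0 : 0 < p) (hp1 : p < 1) :
    (⨅ (y : ℕ → ℝ) (_ : IsTrajectory y), ratio p y) +
        ENNReal.ofReal (p ^ 4 * (1 - p) ^ 3 / 20) ≤
      (⨅ (y : ℕ → ℝ) (_ : IsCyclicTwoRays y), ratio p y) ∧
    (⨅ (y : ℕ → ℝ) (_ : IsCyclicTwoRays y), ratio p y) ≤ ENNReal.ofReal (8 + p) ∧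
    (∀ y : ℕ → ℝ, IsCyclicTwoRays y → IsTrajectory y) ∧
    ∃ y : ℕ → ℝ, IsTrajectory y ∧
      ratio p y < ⨅ (y' : ℕ → ℝ) (_ : IsCyclicTwoRays y'), ratio p y' := by
  have hA : (⨅ (y : ℕ → ℝ) (_ : IsTrajectory y), ratio p y) +
        ENNReal.ofReal (p ^ 4 * (1 - p) ^ 3 / 20) ≤
      (⨅ (y : ℕ → ℝ) (_ : IsCyclicTwoRays y), ratio p y) := by
    have h1 : (⨅ (y : ℕ → ℝ) (_ : IsTrajectory y), ratio p y) ≤
        ⨅ (y : ℕ → ℝ) (_ : IsTrajectory y), competitiveRatio p y :=
      iInf₂_mono fun y _ => ratio_le p y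
    have h2 := Pool.Agent.Y237.FL.gap hp0 hp1
    refine (add_le_add h1 le_rfl).trans (h2.trans ?_)
    refine le_iInf₂ fun y hyc => ?_
    refine le_trans ?_ (le_ratio hp0 hp1 hyc)
    obtain ⟨hy0, x, hx0, hx2, h3, hy⟩ := hyc
    refine iInf_le_of_le y (iInf_le_of_le (isTrajectory_cyc hx0 hx2 hy0 hy) ?_)
    exact iInf_le_of_le ⟨x, hx0, hx2, Or.inl hy⟩ le_rfl
  have hB : (⨅ (y : ℕ → ℝ) (_ : IsCyclicTwoRays y), ratio p y) ≤ ENNReal.ofReal (8 + p) := by
    obtain ⟨y0, h1, h2⟩ := finite_cyc hp0 hp1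
    exact iInf_le_of_le y0 (iInf_le_of_le h1 ((ratio_le p y0).trans h2))
  refine ⟨hA, hB, isTrajectory, ?_⟩
  have hq0 : 0 < 1 - p := by linarith
  have hδ : (0 : ℝ) < p ^ 4 * (1 - p) ^ 3 / 20 := by positivity
  have hlt : (⨅ (y : ℕ → ℝ) (_ : IsTrajectory y), ratio p y) <
      ⨅ (y : ℕ → ℝ) (_ : IsCyclicTwoRays y), ratio p y := by
    have hfin : (⨅ (y : ℕ → ℝ) (_ : IsTrajectory y), ratio p y) ≠ ⊤ := by
      intro htop
      rw [htop, top_add, top_le_iff] at hA
      rw [hA, top_le_iff] at hB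
      exact ENNReal.ofReal_ne_top hB
    refine lt_of_lt_of_le ?_ hA
    apply ENNReal.lt_add_right hfin
    simpa using hδ
  obtain ⟨y, hy⟩ := iInf_lt_iff.1 hlt
  obtain ⟨h1, h2⟩ := iInf_lt_iff.1 hy
  exact ⟨y, h1, h2⟩

end Pool.Agent.Results.MP_d94893_lc.LineNotCyclic
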